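import Mathlib

set_option autoImplicit false

/-!
Definitions shared by the hand-ins on diametric maximality of row-deleted Hadamard matrices.
-/

namespace Pool.Agent.Lib.MP_1efffb_co

open Matrix

/-- A vector of the cube `Q_m = {1, -1}^m`, seen as an integer vector. -/
def InCube {m : ℕ} (x : Fin m → ℤ) : Prop := ∀ i, x i = 1 ∨ x i = -1

/-- The diameter of a finite set of vectors for the Hamming distance
(the maximum of the distances of two of its members). -/
def diam {m : ℕ} (A : Finset (Fin m → ℤ)) : ℕ :=
  A.sup fun x => A.sup fun y => hammingDist x y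

/-- `A` is nonempty and no point of the cube `Q_m` outside `A` can be added to `A`
without raising the diameter. -/
def DiametricallyMaximal {m : ℕ} (A : Finset (Fin m → ℤ)) : Prop :=
  A.Nonempty ∧ ∀ x : Fin m → ℤ, InCube x → x ∉ A → diam A < diam (insert x A)

/-- A Hadamard matrix of order `n` whose first row and first column are all ones. -/
def IsNormalizedHadamard {n : ℕ} (H : Matrix (Fin n) (Fin n) ℤ) : Prop :=
  H.IsHadamard ∧ (∀ i j, i.val = 0 → H i j = 1) ∧ (∀ i j, j.val = 0 → H i j = 1)

/-- The matrix obtained by deleting the first `r` rows. -/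
def deleteRows {n : ℕ} (r : ℕ) (H : Matrix (Fin n) (Fin n) ℤ) : Matrix (Fin (n - r)) (Fin n) ℤ :=
  fun i j => H ⟨r + i.val, by have := i.isLt; omega⟩ j

/-- The set of columns of the matrix obtained from `H` by deleting the first `r` rows. -/
def columnSet {n : ℕ} (r : ℕ) (H : Matrix (Fin n) (Fin n) ℤ) : Finset (Fin (n - r) → ℤ) :=
  Finset.univ.image fun j => fun i => deleteRows r H i j

end Pool.Agent.Lib.MP_1efffb_co
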