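import Mathlib
import Pool.Agent.Lib.MP_1efffb_co.Defs

set_option autoImplicit false

namespace Pool.Agent.Lib.MP_1efffb_co

open Matrix Finset

variable {n : ℕ}

/-- The Hamming distance of two truncated vectors. -/
lemma hammingDist_trunc (r : ℕ) (x y : Fin n → ℤ) :
    hammingDist (fun i : Fin (n - r) => x ⟨r + i.val, by have := i.isLt; omega⟩)
      (fun i : Fin (n - r) => y ⟨r + i.val, by have := i.isLt; omega⟩)
      = #{i : Fin n | r ≤ i.val ∧ x i ≠ y i} := by
  unfold hammingDist
  refine Finset.card_bij (fun i _ => (⟨r + i.val, by have := i.isLt; omega⟩ : Fin n)) ?_ ?_ ?_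
  · intro a ha
    simp only [mem_filter, mem_univ, true_and] at ha ⊢
    exact ⟨Nat.le_add_right _ _, ha⟩
  · intro a _ b _ h
    simp only [Fin.mk.injEq, Nat.add_left_cancel_iff] at h
    exact Fin.ext h
  · intro b hb
    simp only [mem_filter, mem_univ, true_and] at hb
    have hb2 := b.isLt
    refine ⟨⟨b.val - r, by omega⟩, ?_, ?_⟩
    · simp only [mem_filter, mem_univ, true_and]
      have : (⟨r + (b.val - r), by omega⟩ : Fin n) = b := Fin.ext (by simp; omega)
      rw [this]
      exact hb.2
    · exact Fin.ext (by simp; omega)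

/-- Entries of a Hadamard matrix over the integers. -/
lemma entry_eq {H : Matrix (Fin n) (Fin n) ℤ} (hH : H.IsHadamard) (i j : Fin n) :
    H i j = 1 ∨ H i j = -1 := by
  have h := hH.apply_mem i j
  rw [Unitary.mem_iff] at h
  have h2 : H i j * H i j = 1 := by simpa using h.2
  exact mul_self_eq_one_iff.mp h2

lemma sum_cols {H : Matrix (Fin n) (Fin n) ℤ} (hH : H.IsHadamard) (j j' : Fin n) :
    ∑ i, H i j * H i j' = if j = j' then (n : ℤ) else 0 := by
  have h := congrFun (congrFun hH.conjTranspose_mul j) j'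
  simp only [Matrix.mul_apply, Matrix.conjTranspose_apply, star_trivial, Fintype.card_fin,
    Matrix.smul_apply, Matrix.one_apply, smul_eq_mul, mul_ite, mul_one, mul_zero] at h
  exact h

lemma sum_rows {H : Matrix (Fin n) (Fin n) ℤ} (hH : H.IsHadamard) (i i' : Fin n) :
    ∑ j, H i j * H i' j = if i = i' then (n : ℤ) else 0 := by
  have h := congrFun (congrFun hH.mul_conjTranspose i) i'
  simp only [Matrix.mul_apply, Matrix.conjTranspose_apply, star_trivial, Fintype.card_fin,
    Matrix.smul_apply, Matrix.one_apply, smul_eq_mul, mul_ite, mul_one, mul_zero] at h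
  exact h

/-- For sign vectors the inner product determines the number of differing coordinates. -/
lemma two_mul_card_ne {ι : Type*} [Fintype ι] (x y : ι → ℤ) (hx : ∀ i, x i = 1 ∨ x i = -1)
    (hy : ∀ i, y i = 1 ∨ y i = -1) :
    2 * (#{i : ι | x i ≠ y i} : ℤ) = Fintype.card ι - ∑ i, x i * y i := by
  rw [Finset.card_filter]
  push_cast
  rw [Finset.mul_sum]
  have : (Fintype.card ι : ℤ) = ∑ _i : ι, (1 : ℤ) := by simp
  rw [this, ← Finset.sum_sub_distrib]
  refine Finset.sum_congr rfl fun i _ => ?_
  rcases hx i with h | h <;> rcases hy i with h' | h' <;> rw [h, h'] <;> norm_num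

/-- Two distinct columns of a Hadamard matrix differ in exactly half of the rows. -/
lemma two_mul_card_cols {H : Matrix (Fin n) (Fin n) ℤ} (hH : H.IsHadamard) {j j' : Fin n}
    (hjj : j ≠ j') : 2 * #{i : Fin n | H i j ≠ H i j'} = n := by
  have h := two_mul_card_ne (fun i => H i j) (fun i => H i j') (fun i => entry_eq hH i j)
    (fun i => entry_eq hH i j')
  rw [sum_cols hH, if_neg hjj] at h
  simp only [Fintype.card_fin, sub_zero] at h
  exact_mod_cast h

lemma mem_columnSet {r : ℕ} {H : Matrix (Fin n) (Fin n) ℤ} {x : Fin (n - r) → ℤ} :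
    x ∈ columnSet r H ↔ ∃ j, (fun i => deleteRows r H i j) = x := by
  unfold columnSet
  simp

/-- The distance of two truncated columns. -/
lemma hammingDist_cols (r : ℕ) (H : Matrix (Fin n) (Fin n) ℤ) (j j' : Fin n) :
    hammingDist (fun i => deleteRows r H i j) (fun i => deleteRows r H i j')
      = #{i : Fin n | r ≤ i.val ∧ H i j ≠ H i j'} :=
  hammingDist_trunc r (fun i => H i j) (fun i => H i j')

lemma two_mul_hammingDist_cols_le {H : Matrix (Fin n) (Fin n) ℤ} (hH : H.IsHadamard) (r : ℕ)
    (j j' : Fin n) :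
    2 * hammingDist (fun i => deleteRows r H i j) (fun i => deleteRows r H i j') ≤ n := by
  by_cases hjj : j = j'
  · subst hjj
    simp
  rw [hammingDist_cols]
  refine le_trans ?_ (two_mul_card_cols hH hjj).le
  refine Nat.mul_le_mul_left _ (Finset.card_le_card ?_)
  intro i hi
  simp only [mem_filter, mem_univ, true_and] at hi ⊢
  exact hi.2

lemma le_diam {m : ℕ} {A : Finset (Fin m → ℤ)} {x y : Fin m → ℤ} (hx : x ∈ A) (hy : y ∈ A) :
    hammingDist x y ≤ diam A := by
  unfold diam
  exact le_trans (Finset.le_sup (f := fun y => hammingDist x y) hy)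
    (Finset.le_sup (f := fun x => A.sup fun y => hammingDist x y) hx)

lemma diam_le {m : ℕ} {A : Finset (Fin m → ℤ)} {d : ℕ}
    (h : ∀ x ∈ A, ∀ y ∈ A, hammingDist x y ≤ d) : diam A ≤ d := by
  unfold diam
  exact Finset.sup_le fun x hx => Finset.sup_le fun y hy => h x hx y hy

end Pool.Agent.Lib.MP_1efffb_co
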