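import Mathlib
import Pool.Agent.Lib.MP_1efffb_co.Basic

set_option autoImplicit false

namespace Pool.Agent.Lib.MP_1efffb_co

open Matrix Finset

/-- A normalized Hadamard matrix of order 4. -/
def S4 : Matrix (Fin 4) (Fin 4) ℤ := !![1, 1, 1, 1; 1, 1, -1, -1; 1, -1, 1, -1; 1, -1, -1, 1]

/-- The twisting sign. -/
def tw (a b : ℕ) : ℤ := if a ≠ 0 ∧ b ≠ 0 then -1 else 1

/-- Twisted product of the Hadamard matrix of order 4 with a Hadamard matrix of order `m`. -/
def ext {m : ℕ} (K : Matrix (Fin m) (Fin m) ℤ) : Matrix (Fin (m * 4)) (Fin (m * 4)) ℤ :=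
  fun i j => S4 (finProdFinEquiv.symm i).2 (finProdFinEquiv.symm j).2 *
    K (finProdFinEquiv.symm i).1 (finProdFinEquiv.symm j).1 *
    tw (finProdFinEquiv.symm i).1.val (finProdFinEquiv.symm j).2.val

lemma tw_eq (a b : ℕ) : tw a b = 1 ∨ tw a b = -1 := by
  unfold tw
  split_ifs
  · right; rfl
  · left; rfl

lemma tw_mul_self (a b : ℕ) : tw a b * tw a b = 1 := by
  rcases tw_eq a b with h | h <;> rw [h] <;> norm_num

lemma S4_eq (u w : Fin 4) : S4 u w = 1 ∨ S4 u w = -1 := by
  revert u w; decide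

lemma S4_rows (u u' : Fin 4) : ∑ w, S4 u w * S4 u' w = if u = u' then 4 else 0 := by
  revert u u'; decide

lemma ext_apply {m : ℕ} (K : Matrix (Fin m) (Fin m) ℤ) (p q : Fin m) (u w : Fin 4) :
    ext K (finProdFinEquiv (p, u)) (finProdFinEquiv (q, w)) = S4 u w * K p q * tw p.val w.val := by
  unfold ext
  simp

lemma ext_isHadamard {m : ℕ} (hm : m ≠ 0) {K : Matrix (Fin m) (Fin m) ℤ} (hK : K.IsHadamard) :
    (ext K).IsHadamard := by
  apply IsHadamard.of_mul_conjTranspose
  · intro i j
    rw [Unitary.mem_iff_eq_one_or_eq_neg_one]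
    unfold ext
    rcases S4_eq (finProdFinEquiv.symm i).2 (finProdFinEquiv.symm j).2 with h1 | h1 <;>
    rcases entry_eq hK (finProdFinEquiv.symm i).1 (finProdFinEquiv.symm j).1 with h2 | h2 <;>
    rcases tw_eq (finProdFinEquiv.symm i).1.val (finProdFinEquiv.symm j).2.val with h3 | h3 <;>
    rw [h1, h2, h3] <;> norm_num
  · ext i i'
    obtain ⟨⟨p, u⟩, rfl⟩ := finProdFinEquiv.surjective i
    obtain ⟨⟨p', u'⟩, rfl⟩ := finProdFinEquiv.surjective i'
    simp only [Matrix.mul_apply, Matrix.conjTranspose_apply, star_trivial, Fintype.card_fin,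
      Matrix.smul_apply, Matrix.one_apply, smul_eq_mul, mul_ite, mul_one, mul_zero]
    rw [← finProdFinEquiv.sum_comp, Fintype.sum_prod_type]
    simp only [ext_apply, EmbeddingLike.apply_eq_iff_eq, Prod.mk.injEq]
    have h1 : ∀ q : Fin m, ∀ w : Fin 4, S4 u w * K p q * tw p.val w.val *
        (S4 u' w * K p' q * tw p'.val w.val)
        = (K p q * K p' q) * (S4 u w * S4 u' w * (tw p.val w.val * tw p'.val w.val)) := by
      intro q w; ring
    simp only [h1]
    simp only [← Finset.mul_sum, ← Finset.sum_mul]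
    rw [sum_rows hK]
    by_cases hp : p = p'
    · subst hp
      simp only [tw_mul_self, mul_one, S4_rows]
      by_cases hu : u = u'
      · subst hu
        simp
      · simp [hu]
    · simp [hp]
  · rw [isRegular_iff_ne_zero]
    simp [hm]

lemma ext_isNormalized {m : ℕ} (hm : m ≠ 0) {K : Matrix (Fin m) (Fin m) ℤ}
    (hK : IsNormalizedHadamard K) : IsNormalizedHadamard (ext K) := by
  refine ⟨ext_isHadamard hm hK.1, ?_, ?_⟩
  · intro i j hi
    obtain ⟨⟨p, u⟩, rfl⟩ := finProdFinEquiv.surjective i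
    obtain ⟨⟨q, w⟩, rfl⟩ := finProdFinEquiv.surjective j
    rw [ext_apply]
    simp only [finProdFinEquiv_apply_val] at hi
    have hu : u = 0 := by apply Fin.ext; simp; omega
    have hp : p.val = 0 := by omega
    rw [hK.2.1 p q hp, hu, hp]
    have h1 : S4 0 w = 1 := by revert w; decide
    rw [h1]
    simp [tw]
  · intro i j hj
    obtain ⟨⟨p, u⟩, rfl⟩ := finProdFinEquiv.surjective i
    obtain ⟨⟨q, w⟩, rfl⟩ := finProdFinEquiv.surjective j
    rw [ext_apply]
    simp only [finProdFinEquiv_apply_val] at hj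
    have hw : w = 0 := by apply Fin.ext; simp; omega
    have hq : q.val = 0 := by omega
    rw [hK.2.2 p q hq, hw]
    have h1 : S4 u 0 = 1 := by revert u; decide
    rw [h1]
    simp [tw]

/-- Normalized Hadamard matrices of order `4 ^ t`. -/
lemma exists_normalized (t : ℕ) :
    ∃ K : Matrix (Fin (4 ^ t)) (Fin (4 ^ t)) ℤ, IsNormalizedHadamard K := by
  induction t with
  | zero =>
    refine ⟨fun _ _ => 1, ⟨?_, ?_, ?_⟩, ?_, ?_⟩
    · intro i j; simp
    · ext i j
      have : i = j := by
        apply Fin.ext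
        have h0 : 4 ^ 0 = 1 := pow_zero 4
        have h1 := i.isLt
        have h2 := j.isLt
        omega
      subst this
      simp [Matrix.mul_apply]
    · ext i j
      have : i = j := by
        apply Fin.ext
        have h0 : 4 ^ 0 = 1 := pow_zero 4
        have h1 := i.isLt
        have h2 := j.isLt
        omega
      subst this
      simp [Matrix.mul_apply]
    · intro i j _; rfl
    · intro i j _; rfl
  | succ t ih =>
    obtain ⟨K, hK⟩ := ih
    exact ⟨ext K, ext_isNormalized (pow_ne_zero _ (by norm_num)) hK⟩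

/-- The extra point (before truncation). -/
def X {m : ℕ} : Fin (m * 4) → ℤ := fun i => if (finProdFinEquiv.symm i).2 = 0 then -1 else 1

lemma X_apply {m : ℕ} (p : Fin m) (u : Fin 4) :
    X (finProdFinEquiv (p, u)) = if u = 0 then -1 else 1 := by
  unfold X; simp

lemma X_eq {m : ℕ} (i : Fin (m * 4)) : X i = 1 ∨ X i = -1 := by
  unfold X; split_ifs
  · right; rfl
  · left; rfl

/-- In each block of rows the number of mismatches is controlled. -/
lemma block_bound (w : Fin 4) (k : ℤ) (hk : k = 1 ∨ k = -1) (z : Bool) (hz : z = false → k = 1) :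
    (#{u : Fin 4 | (z = false → u = 3) ∧
      (if u = 0 then (-1 : ℤ) else 1) ≠ S4 u w * k * (if z = true ∧ w ≠ 0 then -1 else 1)} : ℤ)
      ≤ 2 - k := by
  rcases hk with rfl | rfl
  · revert w z; decide
  · cases z
    · exact absurd (hz rfl) (by decide)
    · revert w; decide

lemma block_exists (w : Fin 4) (k : ℤ) (hk : k = 1 ∨ k = -1) :
    ∃ u : Fin 4, (if u = 0 then (-1 : ℤ) else 1) ≠ S4 u w * k * (if w ≠ 0 then -1 else 1) := by
  rcases hk with rfl | rfl <;> revert w <;> decide

end Pool.Agent.Lib.MP_1efffb_co
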